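import Mathlib
import Pool.Agent.V5helper57.WZ.Stm

/-! # Project WZ, jobs CEX, CTR, CQ2: counting in `ZMod p`. -/

set_option autoImplicit false

open Matrix

namespace Pool.Agent.V5helper29.WZ

open Pool.Agent.V5helper57.WZ

open Classical in
theorem t_CEX : S_CEX := by
  intro p _ l m ua ub hua hub
  have hc : (Finset.univ : Finset (ZMod p × ZMod p × ZMod p)).card = p ^ 3 := by
    rw [Finset.card_univ, Fintype.card_prod, Fintype.card_prod, ZMod.card]; ring
  rw [← hc]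
  apply Finset.card_le_card_of_injOn (fun z => (z.1 0, z.1 1, z.2 0))
  · intro z _; exact Finset.mem_coe.2 (Finset.mem_univ _)
  · rintro ⟨w, s⟩ hz ⟨w', s'⟩ hz' h
    simp only [Finset.coe_filter, Finset.mem_univ, true_and, Set.mem_ofPred_eq] at hz hz'
    obtain ⟨h1, h2, h3⟩ := hz
    obtain ⟨h1', h2', h3'⟩ := hz'
    simp only [Prod.mk.injEq] at h
    obtain ⟨e0, e1, e2⟩ := h
    have k1 : w 2 = w' 2 := by
      apply mul_left_cancel₀ hua
      rw [e1] at h1
      linear_combination h1 - h1'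
    have k2 : s 2 = s' 2 := by
      apply mul_left_cancel₀ hua
      rw [e2] at h2
      linear_combination h2 - h2'
    have k3 : s 1 = s' 1 := by
      apply mul_left_cancel₀ hub
      rw [e2] at h3
      linear_combination h3 - h3'
    have a1 : w = w' := by
      funext i; fin_cases i
      · exact e0
      · exact e1
      · exact k1
    have a2 : s = s' := by
      funext i; fin_cases i
      · exact e2
      · exact k3
      · exact k2
    rw [a1, a2]

/-- the number of nonzero elements -/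
theorem card_units (p : ℕ) [Fact p.Prime] : Fintype.card {x : ZMod p // x ≠ 0} = p - 1 := by
  classical
  have h := Fintype.card_subtype_compl (fun x : ZMod p => x = 0)
  have h1 : Fintype.card {x : ZMod p // x = 0} = 1 := by
    rw [Fintype.card_eq_one_iff]
    exact ⟨⟨0, rfl⟩, fun y => Subtype.ext y.2⟩
  rw [h1, ZMod.card] at h
  exact h

open Classical in
theorem t_CTR : S_CTR := by
  intro p _ l m ua ub hl hua hub
  have hE := t_CEX p l m ua ub hua hub
  set A := (Finset.univ : Finset ((Fin 3 → ZMod p) × (Fin 3 → ZMod p))).filter fun z =>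
      z.2 0 ≠ 0 ∧ l * z.1 2 * z.2 1 ≠ z.1 1 * z.2 2 * m with hA
  have h1 : p ^ 3 * (p - 1) ^ 3 ≤ A.card := by
    have hc : (Finset.univ : Finset ((ZMod p × ZMod p × ZMod p) ×
        ({x : ZMod p // x ≠ 0} × {x : ZMod p // x ≠ 0} × {x : ZMod p // x ≠ 0}))).card =
        p ^ 3 * (p - 1) ^ 3 := by
      rw [Finset.card_univ, Fintype.card_prod, Fintype.card_prod, Fintype.card_prod, Fintype.card_prod,
        Fintype.card_prod, card_units, ZMod.card]; ring
    rw [← hc]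
    apply Finset.card_le_card_of_injOn (fun q => (![q.1.1, q.1.2.1, (q.2.2.2.1 + q.1.2.1 * q.1.2.2 * m) / (l * q.2.2.1.1)],
      ![q.2.1.1, q.2.2.1.1, q.1.2.2]))
    · rintro ⟨⟨w0, w1, s2⟩, ⟨s0, hs0⟩, ⟨s1, hs1⟩, ⟨t, ht⟩⟩ _
      simp only [hA, Finset.coe_filter, Finset.mem_univ, true_and, Set.mem_ofPred_eq]
      refine ⟨hs0, ?_⟩
      show l * ((t + w1 * s2 * m) / (l * s1)) * s1 ≠ w1 * s2 * m
      have e : l * ((t + w1 * s2 * m) / (l * s1)) * s1 = t + w1 * s2 * m := by field_simp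
      rw [e]
      intro h
      exact ht (by linear_combination h)
    · rintro ⟨⟨w0, w1, s2⟩, ⟨s0, hs0⟩, ⟨s1, hs1⟩, ⟨t, ht⟩⟩ _ ⟨⟨w0', w1', s2'⟩, ⟨s0', hs0'⟩, ⟨s1', hs1'⟩, ⟨t', ht'⟩⟩ _ h
      simp only [Prod.mk.injEq] at h
      obtain ⟨hw, hs⟩ := h
      have a0 : w0 = w0' := congrFun hw 0
      have a1 : w1 = w1' := congrFun hw 1
      have a2 : (t + w1 * s2 * m) / (l * s1) = (t' + w1' * s2' * m) / (l * s1') := congrFun hw 2
      have b0 : s0 = s0' := congrFun hs 0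
      have b1 : s1 = s1' := congrFun hs 1
      have b2 : s2 = s2' := congrFun hs 2
      subst a0 a1 b0 b1 b2
      have c : t = t' := by
        have hne : l * s1 ≠ 0 := mul_ne_zero hl hs1
        rw [div_left_inj' hne] at a2
        linear_combination a2
      subst c
      rfl
  have h2 : A.card ≤ ((Finset.univ : Finset ((Fin 3 → ZMod p) × (Fin 3 → ZMod p))).filter fun z =>
      ub * z.1 1 + ua * z.1 2 = 0 ∧ z.2 0 * l + ua * z.2 2 = 0 ∧ z.2 0 * m + ub * z.2 1 = 0).card +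
      ((Finset.univ : Finset ((Fin 3 → ZMod p) × (Fin 3 → ZMod p))).filter fun z =>
      z.2 0 ≠ 0 ∧ l * z.1 2 * z.2 1 ≠ z.1 1 * z.2 2 * m ∧
      ¬ (ub * z.1 1 + ua * z.1 2 = 0 ∧ z.2 0 * l + ua * z.2 2 = 0 ∧ z.2 0 * m + ub * z.2 1 = 0)).card := by
    refine le_trans (Finset.card_le_card ?_) (Finset.card_union_le _ _)
    intro z hz
    simp only [hA, Finset.mem_filter, Finset.mem_univ, true_and] at hz
    simp only [Finset.mem_union, Finset.mem_filter, Finset.mem_univ, true_and]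
    by_cases hq : ub * z.1 1 + ua * z.1 2 = 0 ∧ z.2 0 * l + ua * z.2 2 = 0 ∧ z.2 0 * m + ub * z.2 1 = 0
    · exact Or.inl hq
    · exact Or.inr ⟨hz.1, hz.2, hq⟩
  exact le_trans h1 (le_trans h2 (Nat.add_le_add_right hE _))

open Classical in
theorem t_CQ2 : S_CQ2 := by
  constructor
  · intro p _ β
    have hc : (Finset.univ : Finset ((ZMod p × ZMod p) ×
        ({x : ZMod p // x ≠ 0} × {x : ZMod p // x ≠ 0} × {x : ZMod p // x ≠ 0} × {x : ZMod p // x ≠ 0}))).card =
        p ^ 2 * (p - 1) ^ 4 := by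
      rw [Finset.card_univ, Fintype.card_prod, Fintype.card_prod, Fintype.card_prod, Fintype.card_prod,
        Fintype.card_prod, card_units, ZMod.card]; ring
    rw [← hc]
    apply Finset.card_le_card_of_injOn (fun q => (![q.1.1, q.2.2.1.1, q.2.2.2.1.1],
      ![q.2.1.1, q.1.2, (q.2.2.2.2.1 - β) * q.2.1.1]))
    · rintro ⟨⟨w0, s1⟩, ⟨s0, hs0⟩, ⟨w1, hw1⟩, ⟨w2, hw2⟩, ⟨t, ht⟩⟩ _
      simp only [Finset.coe_filter, Finset.mem_univ, true_and, Set.mem_ofPred_eq]
      refine ⟨hs0, hw1, hw2, ?_⟩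
      show β + (t - β) * s0 / s0 ≠ 0
      rw [mul_div_assoc, div_self hs0]
      intro h
      exact ht (by linear_combination h)
    · rintro ⟨⟨w0, s1⟩, ⟨s0, hs0⟩, ⟨w1, hw1⟩, ⟨w2, hw2⟩, ⟨t, ht⟩⟩ _ ⟨⟨w0', s1'⟩, ⟨s0', hs0'⟩, ⟨w1', hw1'⟩, ⟨w2', hw2'⟩, ⟨t', ht'⟩⟩ _ h
      simp only [Prod.mk.injEq] at h
      obtain ⟨hw, hs⟩ := h
      have a0 : w0 = w0' := congrFun hw 0
      have a1 : w1 = w1' := congrFun hw 1
      have a2 : w2 = w2' := congrFun hw 2
      have b0 : s0 = s0' := congrFun hs 0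
      have b1 : s1 = s1' := congrFun hs 1
      have b2 : (t - β) * s0 = (t' - β) * s0' := congrFun hs 2
      subst a0 a1 a2 b0 b1
      have c : t = t' := by
        have := mul_right_cancel₀ hs0 b2
        linear_combination this
      subst c
      rfl
  · intro p _
    have hc : (Finset.univ : Finset ((ZMod p) ×
        ({x : ZMod p // x ≠ 0} × {x : ZMod p // x ≠ 0} × {x : ZMod p // x ≠ 0}))).card =
        p * (p - 1) ^ 3 := by
      rw [Finset.card_univ, Fintype.card_prod, Fintype.card_prod, Fintype.card_prod, card_units, ZMod.card]; ring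
    rw [← hc]
    apply Finset.card_le_card_of_injOn (fun q => (![q.1, q.2.2.1.1],
      ![q.2.1.1, q.2.2.2.1]))
    · rintro ⟨w0, ⟨s0, hs0⟩, ⟨w1, hw1⟩, ⟨s1, hs1⟩⟩ _
      simp only [Finset.coe_filter, Finset.mem_univ, true_and, Set.mem_ofPred_eq]
      exact ⟨hs0, hw1, hs1⟩
    · rintro ⟨w0, ⟨s0, hs0⟩, ⟨w1, hw1⟩, ⟨s1, hs1⟩⟩ _ ⟨w0', ⟨s0', hs0'⟩, ⟨w1', hw1'⟩, ⟨s1', hs1'⟩⟩ _ h
      simp only [Prod.mk.injEq] at h
      obtain ⟨hw, hs⟩ := h
      have a0 : w0 = w0' := congrFun hw 0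
      have a1 : w1 = w1' := congrFun hw 1
      have b0 : s0 = s0' := congrFun hs 0
      have b1 : s1 = s1' := congrFun hs 1
      subst a0 a1 b0 b1
      rfl

end Pool.Agent.V5helper29.WZ
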